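import Pool.Agent.Helper11.LE.Goals2
import Pool.Agent.Helper99.RS.QEX
import Pool.Agent.Helper59.RS.PSM
import Pool.Agent.Helper58.RS.EUL
import Pool.Agent.Helper61.RS.ZET
import Pool.Agent.Helper88.RS.DG1

/-!
# Project LE, packet LE-PIK: choice of a prime
-/

namespace Pool.Agent.Helper22.LE

open NumberField Polynomial Module IsDedekindDomain Pool.Agent.Helper11.LE
open Pool.Agent.Helper38.RS (pz)
open Pool.Agent.Helper99.RS (pz_mono pz_union pz_finite)

theorem l_pik : Pool.Agent.Helper11.LE.L_PIK := by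
  intro F _ _
  obtain ⟨C2, hC2⟩ := Pool.Agent.Helper88.RS.s_dg1 F
  constructor
  · intro A₁ A₂ B Z c₁ c₂ h1 h2 hc hB hZ
    obtain ⟨C1, hC1⟩ := Pool.Agent.Helper59.RS.s_psm Pool.Agent.Helper58.RS.s_eul
      (Pool.Agent.Helper61.RS.s_zet Pool.Agent.Helper58.RS.s_eul) F
    obtain ⟨D1, hD1⟩ := h1
    obtain ⟨D2, hD2⟩ := h2
    obtain ⟨D3, hD3⟩ := hB
    by_contra hcon
    push Not at hcon
    have hsub : (Set.univ : Set (HeightOneSpectrum (𝓞 F))) ⊆
        (A₁ ∪ (A₂ ∪ (B ∪ (Z ∪ {v | ¬ (Ideal.absNorm v.asIdeal).Prime})))) := by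
      intro v _
      by_contra hv
      simp only [Set.mem_union, Set.mem_ofPred_eq, not_or, not_not] at hv
      obtain ⟨a, b, c, d, e⟩ := hv
      exact hcon v a b c d e
    have key : ∀ s : ℝ, 1 < s → s ≤ 2 →
        (1 - c₁ - c₂) * Real.log (1 / (s - 1)) ≤
          C1 + (D1 + (D2 + (D3 + ((hZ.toFinset.card : ℝ) + C2)))) := by
      intro s hs hs2
      have e1 := abs_le.1 (hC1 s hs hs2)
      have e2 := pz_mono hsub s hs
      have e3 := pz_union A₁ (A₂ ∪ (B ∪ (Z ∪ {v | ¬ (Ideal.absNorm v.asIdeal).Prime}))) s hs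
      have e4 := pz_union A₂ (B ∪ (Z ∪ {v | ¬ (Ideal.absNorm v.asIdeal).Prime})) s hs
      have e5 := pz_union B (Z ∪ {v | ¬ (Ideal.absNorm v.asIdeal).Prime}) s hs
      have e6 := pz_union Z {v | ¬ (Ideal.absNorm v.asIdeal).Prime} s hs
      have e7 := pz_finite hZ s hs
      have e8 := hC2 s hs hs2
      have e9 := hD1 s hs hs2
      have e10 := hD2 s hs hs2
      have e11 := hD3 s hs hs2
      linarith [e1.1]
    set K := C1 + (D1 + (D2 + (D3 + ((hZ.toFinset.card : ℝ) + C2)))) with hK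
    have hd : 0 < 1 - c₁ - c₂ := by linarith
    set t : ℝ := |K| / (1 - c₁ - c₂) + 1 with ht
    have ht0 : 0 < t := by positivity
    have h3 := key (1 + Real.exp (-t)) (by linarith [Real.exp_pos (-t)])
      (by linarith [Real.exp_le_one_iff.2 (by linarith : -t ≤ 0)])
    have h4 : Real.log (1 / (1 + Real.exp (-t) - 1)) = t := by
      rw [add_sub_cancel_left, one_div, Real.log_inv, Real.log_exp, neg_neg]
    rw [h4, ht, mul_add, mul_div_cancel₀ _ hd.ne', mul_one] at h3
    linarith [le_abs_self K]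
  · intro B Z hB hZ
    by_contra hcon
    push Not at hcon
    apply hB
    have hsub : B ⊆ Z ∪ {v | ¬ (Ideal.absNorm v.asIdeal).Prime} := by
      intro v hv
      by_contra hv'
      simp only [Set.mem_union, Set.mem_ofPred_eq, not_or, not_not] at hv'
      exact hcon v hv hv'.1 hv'.2
    refine ⟨(hZ.toFinset.card : ℝ) + C2, fun s hs hs2 => ?_⟩
    have e2 := pz_mono hsub s hs
    have e6 := pz_union Z {v | ¬ (Ideal.absNorm v.asIdeal).Prime} s hs
    have e7 := pz_finite hZ s hs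
    have e8 := hC2 s hs hs2
    linarith

end Pool.Agent.Helper22.LE
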